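import Pool.Agent.H47R2.EA.St

/-! TASK CHAIN of `h47_tasks`: almost surely the chain sums tend to zero. -/

set_option autoImplicit false

open MeasureTheory ProbabilityTheory
open scoped ENNReal

namespace Pool.H47EA

section CHAIN

variable {d : ℕ}

theorem chain_dist_comm (x y : Site d) : dist1 x y = dist1 y x := by
  unfold dist1
  exact Finset.sum_congr rfl fun i _ => by rw [← Int.natAbs_neg, neg_sub]

theorem chain_dist_tri (x y z : Site d) : dist1 x z ≤ dist1 x y + dist1 y z := by
  unfold dist1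
  rw [← Finset.sum_add_distrib]
  exact Finset.sum_le_sum fun i _ => by omega

theorem chain_mem_ball (x y : Site d) (r : ℕ) : y ∈ ball x r ↔ dist1 x y ≤ r := by
  unfold ball
  rw [Finset.mem_filter, and_iff_right_iff_imp]
  intro h
  rw [Finset.mem_Icc]
  have h1 : ∀ i, (x i - y i).natAbs ≤ r := fun i =>
    (Finset.single_le_sum (f := fun i => (x i - y i).natAbs) (fun _ _ => Nat.zero_le _)
      (Finset.mem_univ i)).trans h
  constructor <;> intro i <;> have := h1 i <;> simp only <;> omega

theorem chain_finite (x : Site d) (R : ℕ) :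
    {e : (lat d).edgeSet | ∀ v ∈ e.1, v ∈ ball x R}.Finite := by
  classical
  have h : (((ball x R ×ˢ ball x R).image (fun p : Site d × Site d => s(p.1, p.2)) :
      Finset (Sym2 (Site d))) : Set (Sym2 (Site d))).Finite := Finset.finite_toSet _
  refine Set.Finite.of_finite_image (f := Subtype.val) (h.subset ?_) Subtype.val_injective.injOn
  rintro _ ⟨⟨e, he'⟩, he, rfl⟩
  induction e using Sym2.ind with
  | _ a b =>
    simp only [Finset.coe_image, Set.mem_image, Finset.mem_coe, Finset.mem_product, Prod.exists]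
    exact ⟨a, b, ⟨he a (Sym2.mem_mk_left a b), he b (Sym2.mem_mk_right a b)⟩, rfl⟩

/-- the edges inside a ball -/
noncomputable def chainF (R : ℕ) (x : Site d) : Finset (lat d).edgeSet := (chain_finite x R).toFinset

theorem chain_mem_F (R : ℕ) (x : Site d) (e : (lat d).edgeSet) :
    e ∈ chainF R x ↔ ∀ v ∈ e.1, v ∈ ball x R := by
  unfold chainF
  rw [Set.Finite.mem_toFinset]; rfl

theorem chain_factor (F : Finset (lat d).edgeSet) (f : Coupling d → ℝ≥0∞)
    (hf : ∀ J J' : Coupling d, (∀ e ∈ F, J e = J' e) → f J = f J') :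
    ∃ g : (F → Bool) → ℝ≥0∞, ∀ J, f J = g (fun e => J e) := by
  classical
  refine ⟨fun y => f (fun e => if h : e ∈ F then y ⟨e, h⟩ else false), fun J =>
    hf _ _ fun e he => ?_⟩
  simp [he]

theorem chain_meas (F : Finset (lat d).edgeSet) (f : Coupling d → ℝ≥0∞)
    (hf : ∀ J J' : Coupling d, (∀ e ∈ F, J e = J' e) → f J = f J') : Measurable f := by
  obtain ⟨g, hg⟩ := chain_factor F f hf
  have : f = g ∘ (fun J : Coupling d => fun e : F => J e) := funext hg
  rw [this]
  exact (measurable_of_finite g).comp (measurable_pi_lambda _ fun e => measurable_pi_apply _)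

theorem chain_indep (F G : Finset (lat d).edgeSet) (hFG : Disjoint F G)
    (f g : Coupling d → ℝ≥0∞)
    (hf : ∀ J J' : Coupling d, (∀ e ∈ F, J e = J' e) → f J = f J')
    (hg : ∀ J J' : Coupling d, (∀ e ∈ G, J e = J' e) → g J = g J') :
    ∫⁻ J, f J * g J ∂(couplingLaw d) =
      (∫⁻ J, f J ∂(couplingLaw d)) * ∫⁻ J, g J ∂(couplingLaw d) := by
  have h : iIndepFun (fun (i : (lat d).edgeSet) (J : Coupling d) => J i) (couplingLaw d) :=
    iIndepFun_infinitePi (P := fun _ : (lat d).edgeSet => (PMF.uniformOfFintype Bool).toMeasure)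
      (X := fun _ => id) (fun _ => measurable_id)
  have h2 := h.indepFun_finset F G hFG (fun i => measurable_pi_apply i)
  obtain ⟨f', hf'⟩ := chain_factor F f hf
  obtain ⟨g', hg'⟩ := chain_factor G g hg
  have h3 := h2.comp (measurable_of_finite f') (measurable_of_finite g')
  have ef : f = f' ∘ (fun J : Coupling d => fun e : F => J e) := funext hf'
  have eg : g = g' ∘ (fun J : Coupling d => fun e : G => J e) := funext hg'
  rw [← ef, ← eg] at h3
  exact lintegral_mul_eq_lintegral_mul_lintegral_of_indepFun (chain_meas F f hf)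
    (chain_meas G g hg) h3

open Classical in
/-- the union of the edge sets of the balls of a list -/
noncomputable def chainFF (R : ℕ) (l : List (Site d)) : Finset (lat d).edgeSet :=
  l.toFinset.biUnion (chainF R)

theorem chain_mem_FF (R : ℕ) (l : List (Site d)) (e : (lat d).edgeSet) :
    e ∈ chainFF R l ↔ ∃ z ∈ l, ∀ v ∈ e.1, v ∈ ball z R := by
  classical
  unfold chainFF
  simp only [Finset.mem_biUnion, List.mem_toFinset, chain_mem_F]

section main
variable {R : ℕ} {Bad : Site d → Set (Coupling d)} {b ε : ℝ≥0∞}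

open Classical in
/-- the weight of a site -/
noncomputable def chainP (Bad : Site d → Set (Coupling d)) (ε : ℝ≥0∞) (J : Coupling d)
    (x : Site d) : ℝ≥0∞ := if J ∈ Bad x then 1 else ε

theorem chain_P_dep
    (h1 : ∀ x (J J' : Coupling d), (∀ e : (lat d).edgeSet, (∀ v ∈ e.1, v ∈ ball x R) → J e = J' e) →
      (J ∈ Bad x ↔ J' ∈ Bad x)) (x : Site d) (J J' : Coupling d)
    (h : ∀ e ∈ chainF R x, J e = J' e) : chainP Bad ε J x = chainP Bad ε J' x := by
  classical
  have := h1 x J J' (fun e he => h e ((chain_mem_F R x e).2 he))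
  unfold chainP
  by_cases hJ : J ∈ Bad x
  · rw [if_pos hJ, if_pos (this.1 hJ)]
  · rw [if_neg hJ, if_neg (fun h' => hJ (this.2 h'))]

theorem chain_Pl_dep
    (h1 : ∀ x (J J' : Coupling d), (∀ e : (lat d).edgeSet, (∀ v ∈ e.1, v ∈ ball x R) → J e = J' e) →
      (J ∈ Bad x ↔ J' ∈ Bad x)) (l : List (Site d)) (J J' : Coupling d)
    (h : ∀ e ∈ chainFF R l, J e = J' e) :
    (l.map (chainP Bad ε J)).prod = (l.map (chainP Bad ε J')).prod := by
  congr 1
  refine List.map_congr_left fun z hz => chain_P_dep h1 z J J' fun e he => h e ?_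
  rw [chain_mem_FF]
  exact ⟨z, hz, (chain_mem_F R z e).1 he⟩

theorem chain_lint_P
    (h1 : ∀ x (J J' : Coupling d), (∀ e : (lat d).edgeSet, (∀ v ∈ e.1, v ∈ ball x R) → J e = J' e) →
      (J ∈ Bad x ↔ J' ∈ Bad x)) (h2 : ∀ x, couplingLaw d (Bad x) ≤ b) (x : Site d) :
    ∫⁻ J, chainP Bad ε J x ∂(couplingLaw d) ≤ ε + b := by
  classical
  have hm : MeasurableSet (Bad x) := by
    have hmf : Measurable (fun J => if J ∈ Bad x then (1 : ℝ≥0∞) else 0) :=
      chain_meas (chainF R x) _ (fun J J' h => chain_P_dep (ε := 0) h1 x J J' h)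
    have : Bad x = (fun J => if J ∈ Bad x then (1 : ℝ≥0∞) else 0) ⁻¹' {1} := by
      ext J
      by_cases hJ : J ∈ Bad x <;> simp [hJ]
    rw [this]
    exact hmf (measurableSet_singleton _)
  calc ∫⁻ J, chainP Bad ε J x ∂(couplingLaw d)
      ≤ ∫⁻ J, (ε + (Bad x).indicator (fun _ => 1) J) ∂(couplingLaw d) := by
        refine lintegral_mono fun J => ?_
        unfold chainP
        by_cases hJ : J ∈ Bad x <;> simp [hJ]
    _ = ε + couplingLaw d (Bad x) := by
        rw [lintegral_add_left measurable_const, lintegral_const, measure_univ, mul_one,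
          lintegral_indicator hm, lintegral_const, one_mul, Measure.restrict_apply MeasurableSet.univ,
          Set.univ_inter]
    _ ≤ ε + b := by gcongr; exact h2 x

theorem chain_lint_Pl
    (h1 : ∀ x (J J' : Coupling d), (∀ e : (lat d).edgeSet, (∀ v ∈ e.1, v ∈ ball x R) → J e = J' e) →
      (J ∈ Bad x ↔ J' ∈ Bad x)) (h2 : ∀ x, couplingLaw d (Bad x) ≤ b) :
    ∀ l : List (Site d), l.Pairwise (fun x z => 2 * R + 1 ≤ dist1 x z) →
      ∫⁻ J, (l.map (chainP Bad ε J)).prod ∂(couplingLaw d) ≤ (ε + b) ^ l.length := by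
  intro l
  induction l with
  | nil => intro _; simp
  | cons x l ih =>
    intro hl
    rw [List.pairwise_cons] at hl
    have hdisj : Disjoint (chainF R x) (chainFF R l) := by
      rw [Finset.disjoint_left]
      intro e he he'
      rw [chain_mem_F] at he
      rw [chain_mem_FF] at he'
      obtain ⟨z, hz, hz'⟩ := he'
      have hv : (Quot.out e.1).1 ∈ e.1 := Sym2.out_fst_mem e.1
      have h5 := (chain_mem_ball _ _ _).1 (he _ hv)
      have h6 := (chain_mem_ball _ _ _).1 (hz' _ hv)
      have h7 := chain_dist_tri x (Quot.out e.1).1 z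
      rw [chain_dist_comm (Quot.out e.1).1 z] at h7
      have h8 := hl.1 z hz
      omega
    simp only [List.map_cons, List.prod_cons, List.length_cons]
    rw [chain_indep (chainF R x) (chainFF R l) hdisj _ _ (fun J J' h => chain_P_dep h1 x J J' h)
      (fun J J' h => chain_Pl_dep h1 l J J' h), pow_succ']
    exact mul_le_mul' (chain_lint_P h1 h2 x) (ih hl.2)

theorem chain_pairwise (R' : ℕ) (A : Finset (Site d)) : ∀ l : List (Site d), IsCh R' A l →
    l.Pairwise (fun x z => R' + 1 ≤ dist1 x z)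
  | [], _ => List.Pairwise.nil
  | [x], _ => List.pairwise_singleton _ _
  | (x :: y :: l), h => by
    rw [List.pairwise_cons]
    exact ⟨h.2.1, chain_pairwise R' A (y :: l) h.2.2⟩

open Classical in
/-- finite sets containing the chains of length `m + 1` -/
noncomputable def chainS (R' : ℕ) (A : Finset (Site d)) : ℕ → Finset (List (Site d))
  | 0 => A.biUnion fun a => (ball a (R' + 1)).image fun x => [x]
  | (m + 1) => (chainS R' A m).biUnion fun l =>
      (ball (l.headD 0) (R' + 1)).image fun x => x :: l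

theorem chain_S_card (R' N : ℕ) (hN : ∀ x : Site d, (ball x (R' + 1)).card ≤ N)
    (A : Finset (Site d)) : ∀ m, (chainS R' A m).card ≤ A.card * N ^ (m + 1)
  | 0 => by
    rw [chainS, zero_add, pow_one]
    exact Finset.card_biUnion_le_card_mul _ _ _ fun a _ => Finset.card_image_le.trans (hN a)
  | (m + 1) => by
    rw [chainS, pow_succ, ← mul_assoc]
    refine (Finset.card_biUnion_le_card_mul _ _ N fun a _ =>
      Finset.card_image_le.trans (hN _)).trans ?_
    exact Nat.mul_le_mul_right _ (chain_S_card R' N hN A m)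

theorem chain_mem_S (R' : ℕ) (A : Finset (Site d)) : ∀ l : List (Site d), IsCh R' A l →
    l ∈ chainS R' A (l.length - 1) ∧ 1 ≤ l.length
  | [], h => h.elim
  | [x], h => by
    classical
    obtain ⟨a, ha, hax⟩ := h
    refine ⟨?_, by simp⟩
    simp only [List.length_cons, List.length_nil, zero_add, Nat.sub_self, chainS,
      Finset.mem_biUnion, Finset.mem_image]
    exact ⟨a, ha, x, (chain_mem_ball a x _).2 (by omega), rfl⟩
  | (x :: y :: l), h => by
    classical
    obtain ⟨h1, _, h3⟩ := h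
    obtain ⟨h4, _⟩ := chain_mem_S R' A (y :: l) h3
    refine ⟨?_, by simp⟩
    simp only [List.length_cons, Nat.add_sub_cancel, chainS, Finset.mem_biUnion,
      Finset.mem_image] at h4 ⊢
    refine ⟨y :: l, h4, x, (chain_mem_ball _ _ _).2 ?_, rfl⟩
    rw [List.headD_cons, chain_dist_comm, h1]

theorem chain_sum_bound (R' N : ℕ) (hN : ∀ x : Site d, (ball x (R' + 1)).card ≤ N)
    (A : Finset (Site d)) (c : ℝ≥0∞) (hc : (N : ℝ≥0∞) * c ≤ 2⁻¹) (w : List (Site d) → ℝ≥0∞)
    (hw : ∀ l, IsCh R' A l → w l ≤ c ^ l.length) (hw' : ∀ l, ¬ IsCh R' A l → w l = 0) :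
    ∑' l, w l ≤ 2 * A.card := by
  classical
  have h1 : ∀ l, w l ≤ ∑' m : ℕ, if l ∈ chainS R' A m then c ^ (m + 1) else 0 := by
    intro l
    by_cases hl : IsCh R' A l
    · obtain ⟨h2, h3⟩ := chain_mem_S R' A l hl
      refine (hw l hl).trans ?_
      refine le_trans ?_ (ENNReal.le_tsum (l.length - 1))
      rw [if_pos h2, Nat.sub_add_cancel h3]
    · rw [hw' l hl]; exact zero_le
  calc ∑' l, w l ≤ ∑' l, ∑' m : ℕ, (if l ∈ chainS R' A m then c ^ (m + 1) else 0) :=
        ENNReal.tsum_le_tsum h1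
    _ = ∑' m : ℕ, ∑' l, (if l ∈ chainS R' A m then c ^ (m + 1) else 0) := ENNReal.tsum_comm
    _ ≤ ∑' m : ℕ, A.card * (2⁻¹ : ℝ≥0∞) ^ (m + 1) := by
        refine ENNReal.tsum_le_tsum fun m => ?_
        rw [tsum_eq_sum (s := chainS R' A m) (fun l hl => if_neg hl),
          Finset.sum_congr rfl (fun l hl => if_pos hl), Finset.sum_const, nsmul_eq_mul]
        calc ((chainS R' A m).card : ℝ≥0∞) * c ^ (m + 1)
            ≤ ((A.card * N ^ (m + 1) : ℕ) : ℝ≥0∞) * c ^ (m + 1) := by
              gcongr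
              exact chain_S_card R' N hN A m
          _ = A.card * (N * c) ^ (m + 1) := by push_cast; rw [mul_pow]; ring
          _ ≤ A.card * (2⁻¹ : ℝ≥0∞) ^ (m + 1) := by gcongr
    _ ≤ 2 * A.card := by
        rw [ENNReal.tsum_mul_left, mul_comm]
        gcongr
        calc ∑' m : ℕ, (2⁻¹ : ℝ≥0∞) ^ (m + 1) ≤ ∑' m : ℕ, (2⁻¹ : ℝ≥0∞) ^ m := by
              refine ENNReal.tsum_le_tsum fun m => ?_
              exact pow_le_pow_of_le_one zero_le (by simp) (Nat.le_succ m)
          _ ≤ 2 := by rw [ENNReal.tsum_geometric, ENNReal.one_sub_inv_two, inv_inv]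

theorem chain_tail (g : List (Site d) → ℝ≥0∞) (hg : ∑' l, g l ≠ ∞) :
    Filter.Tendsto (fun n : ℕ => ∑' l, if n ≤ l.length then g l else 0) Filter.atTop (nhds 0) := by
  classical
  have h := ENNReal.tendsto_tsum_compl_atTop_zero hg
  rw [ENNReal.tendsto_nhds_zero] at h ⊢
  intro δ hδ
  obtain ⟨s, hs⟩ := (h δ hδ).exists
  rw [Filter.eventually_atTop]
  refine ⟨s.sup List.length + 1, fun n hn => le_trans ?_ hs⟩
  have : ∑' b : { x // x ∉ s }, g b = ∑' x, Set.indicator {x | x ∉ s} g x :=
    tsum_subtype {x | x ∉ s} g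
  rw [this]
  refine ENNReal.tsum_le_tsum fun l => ?_
  by_cases hl : n ≤ l.length
  · rw [if_pos hl]
    have : l ∈ {x | x ∉ s} := by
      intro hls
      have := Finset.le_sup (f := List.length) hls
      omega
    rw [Set.indicator_of_mem this]
  · rw [if_neg hl]; exact zero_le

end main

end CHAIN

theorem t_CHAIN : St_CHAIN := by
  classical
  intro d R Bad b ε N h1 h2 h3 h4
  rw [ae_all_iff]
  intro A
  set g : Coupling d → List (Site d) → ℝ≥0∞ := fun J l =>
    if IsCh (2 * R) A l then (l.map (chainP Bad ε J)).prod else 0 with hg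
  have hmeas : ∀ l, Measurable (fun J => g J l) := by
    intro l
    by_cases hl : IsCh (2 * R) A l
    · simp only [hg, if_pos hl]
      exact chain_meas (chainFF R l) _ (fun J J' h => chain_Pl_dep h1 l J J' h)
    · simp only [hg, if_neg hl]
      exact measurable_const
  have hint : ∫⁻ J, ∑' l, g J l ∂(couplingLaw d) ≤ 2 * A.card := by
    rw [lintegral_tsum (fun l => (hmeas l).aemeasurable)]
    refine chain_sum_bound (2 * R) N h3 A (ε + b) h4 _ (fun l hl => ?_) (fun l hl => ?_)
    · simp only [hg, if_pos hl]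
      exact chain_lint_Pl h1 h2 l (chain_pairwise _ _ l hl)
    · simp only [hg, if_neg hl, lintegral_zero]
  have hfin : ∫⁻ J, ∑' l, g J l ∂(couplingLaw d) ≠ ∞ :=
    ne_top_of_le_ne_top (ENNReal.mul_ne_top (by simp) (by simp)) hint
  have hae := ae_lt_top (Measurable.tsum hmeas) hfin
  filter_upwards [hae] with J hJ
  have := chain_tail (g J) hJ.ne
  refine this.congr fun n => ?_
  unfold chSum
  refine tsum_congr fun l => ?_
  simp only [hg]
  by_cases hl : IsCh (2 * R) A l <;> by_cases hn : n ≤ l.length <;> simp [hl, hn]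
  rfl

end Pool.H47EA

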